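import Mathlib
import Pool.Agent.Q58.OAO.Defs
import Pool.Agent.Q58.OAO.Main

/-!
# The join of two orthogonally additive operators need not be given by the pointwise formula

There are Riesz spaces `E` and `F`, with `F` Archimedean, and orthogonally additive maps
`S, T : E → F` whose join `U` in the ordered space of all orthogonally additive maps exists, but
for some `x` the set `{S u + T v : x = u ⊔ v}` has no least upper bound in `F`.
-/

namespace Pool.Agent.Results.MP_f32e1d_an.NoPointwiseSupremum

open Pool.Agent.Q58.OAO

theorem result : ∃ (E F : Type) (_ : AddCommGroup E) (_ : Lattice E) (_ : Module ℝ E)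
    (_ : AddCommGroup F) (_ : Lattice F) (_ : Module ℝ F),
    IsRiesz E ∧ IsRiesz F ∧ IsArch F ∧
    ∃ S T U : E → F, OrthAdd S ∧ OrthAdd T ∧ IsJoin S T U ∧
      ∃ x : E, ¬ ∃ s : F, IsLUB (sums S T x) s :=
  ⟨Q58.OAO.E, Q58.OAO.F, inferInstance, inferInstance, inferInstance, inferInstance,
    inferInstance, inferInstance, E_riesz, F_riesz, F_arch, S, 0, U, S_add, zero_add', isJoin,
    exists_no_sup⟩

end Pool.Agent.Results.MP_f32e1d_an.NoPointwiseSupremum
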